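import Pool.Agent.H51.ERA.Stmts

/-!
MP_e0047e_lc, module FIN: the final pigeonhole.
-/

set_option autoImplicit false

namespace Pool.Agent.H21.ERA

open Pool.Agent.H51.ERA

theorem lam_le_Mb (s t : ℕ) : lam s ≤ Mb s t := by
  have h1 : lam s ≤ gg s t := by unfold gg; omega
  have h2 : gg s t ≤ nn s t := by
    unfold nn
    exact Nat.le_mul_of_pos_right _ (Nat.succ_pos _)
  unfold Mb
  generalize kk s * (2 * (gg s t + 1)) = a at *
  generalize Ob s t * (4 * (gg s t + 1)) = c at *
  omega

theorem DD_le_Mb (s t : ℕ) : DD t ≤ Mb s t := by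
  have h0 : 1 ≤ gg s t := by unfold gg ll; omega
  have h2 : DD t + 1 ≤ nn s t := by
    unfold nn
    exact Nat.le_mul_of_pos_left _ h0
  unfold Mb
  generalize kk s * (2 * (gg s t + 1)) = a at *
  generalize Ob s t * (4 * (gg s t + 1)) = c at *
  omega

/-- extension of a finite bit string -/
def ext (t : ℕ) (β : Fin t → Bool) (j : ℕ) : Bool := if h : j < t then β ⟨j, h⟩ else false

theorem ext_inj (t : ℕ) (β β' : Fin t → Bool) (h : ∀ x < t, ext t β x = ext t β' x) : β = β' := by
  funext j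
  have := h j.1 j.2
  simpa [ext, j.2] using this

/-- the data of a cut -/
structure Dt (N Q : Type) where
  q : Q
  K : List (Sg N)
  r : Bool
  mm : Fin 7 → ℕ

/-- the marks where the kinds are counted -/
def mrk (f : Fin 7 → ℕ) : Fin 7 → ℕ
  | 0 => f 2
  | 1 => f 3
  | 2 => f 4
  | 3 => f 4 + 1
  | 4 => f 5
  | 5 => f 5 + 1
  | 6 => f 6

/-- the properties of the data -/
structure OK (s t : ℕ) (b : ℕ → Bool) (M : ℕ) {N Q : Type} (Cut : Q → List (Sg N) → Prop)
    (d : Dt N Q) : Prop where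
  cut : Cut d.q d.K
  y : yl d.K = WW s t b
  len : d.mm 6 = d.K.length
  bd : ∀ i, d.mm i ≤ M
  root : d.r = true → d.mm 0 = 0 ∧ Mk1 s t b d.K 0 (d.mm 1) (d.mm 2) (d.mm 3) (d.mm 4)
  other : d.r = false → 1 ≤ d.mm 0 ∧ Mk1 s t b d.K (d.mm 0) (d.mm 1) (d.mm 2) (d.mm 3) (d.mm 4) ∧
    Mk2 s t b d.K (d.mm 5)

theorem exists_data (hCUTK : CUTKStmt) (N Q : Type) [Fintype N] (L : List Ltr → Prop) (rho : ℕ)
    (sys : CutSys N Q L rho) (hG : ∀ w, L w → Good w) (s t : ℕ) (b : ℕ → Bool)
    (hs : s = Fintype.card N) (ht : 1 ≤ t) (hL : L (WW s t b)) :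
    ∃ d : Dt N Q, OK s t b (Mb s t + rho) sys.Cut d := by
  obtain ⟨q, K, hc, hy, hl, h | h⟩ := hCUTK N Q L rho sys hG s t b hs ht hL
  · obtain ⟨off, m1, m2, m3, h1⟩ := h
    refine ⟨⟨q, K, true, ![0, off, m1, m2, m3, 0, K.length]⟩, ?_⟩
    have e1 := h1.h12
    have e2 := h1.h23
    have e3 := h1.h3
    have e4 := h1.hoff
    have e5 := lam_le_Mb s t
    refine ⟨hc, hy, rfl, ?_, ?_, ?_⟩
    · intro i
      fin_cases i <;> simp <;> omega
    · intro _
      exact ⟨rfl, h1⟩
    · intro h
      exact absurd h (by simp)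
  · obtain ⟨e, off, m1, m2, m3, mC, he, h1, h2⟩ := h
    refine ⟨⟨q, K, false, ![e, off, m1, m2, m3, mC, K.length]⟩, ?_⟩
    have e1 := h1.h12
    have e2 := h1.h23
    have e3 := h1.h3
    have e4 := h1.hoff
    have e5 := lam_le_Mb s t
    have e6 := h1.he
    have e7 := DD_le_Mb s t
    have e8 := h2.hC
    refine ⟨hc, hy, rfl, ?_, ?_, ?_⟩
    · intro i
      fin_cases i <;> simp <;> omega
    · intro h
      exact absurd h (by simp)
    · intro _
      exact ⟨he, h1, h2⟩

theorem FIN_thm (hCUTK : CUTKStmt) (hHFA : HFAStmt) (hHFB : HFBStmt) (hFBV : FBVStmt)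
    (hPIG : PIGStmt) : FINStmt := by
  intro N Q _ _ L rho sys hG hW
  classical
  obtain ⟨s, hs⟩ : ∃ s, s = Fintype.card N := ⟨_, rfl⟩
  have hfin : Finite {y : List Ltr // y.length < lam s} := by
    have := List.finite_length_lt Ltr (lam s)
    exact this.to_subtype
  let _inst : Fintype (Symbol Ltr N × Option {y : List Ltr // y.length < lam s}) := Fintype.ofFinite _
  obtain ⟨t, ht, hlt⟩ := hPIG s (Fintype.card Q * 2) (rho + 1)
    (7 + Fintype.card (Symbol Ltr N × Option {y : List Ltr // y.length < lam s}) * 7)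
  have hd := fun β : Fin t → Bool =>
    exists_data hCUTK N Q L rho sys hG s t (ext t β) hs ht (hW s t _)
  choose d hd using hd
  set M := Mb s t + rho with hM
  let Φ : (Fin t → Bool) → Q × Bool × (Fin 7 → Fin (M + 1)) ×
      (Fin 7 → (Symbol Ltr N × Option {y : List Ltr // y.length < lam s}) → Fin (M + 1)) :=
    fun β => ⟨(d β).q, (d β).r, fun i => ⟨(d β).mm i, Nat.lt_succ_of_le ((hd β).bd i)⟩,
      fun i k => ⟨(((d β).K.take (mrk (d β).mm i)).map (kd s)).count k, by
        have h1 : (((d β).K.take (mrk (d β).mm i)).map (kd s)).count k ≤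
          (((d β).K.take (mrk (d β).mm i)).map (kd s)).length := List.count_le_length
        have h2 : (((d β).K.take (mrk (d β).mm i)).map (kd s)).length ≤ (d β).K.length := by
          simp
        have h3 := (hd β).bd 6
        rw [(hd β).len] at h3
        omega⟩⟩
  obtain ⟨β, β', hne, heq⟩ : ∃ β β' : Fin t → Bool, β ≠ β' ∧ Φ β = Φ β' := by
    apply Fintype.exists_ne_map_eq_of_card_lt
    simp only [Fintype.card_prod, Fintype.card_bool, Fintype.card_fun, Fintype.card_fin]
    refine lt_of_le_of_lt (le_of_eq ?_) hlt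
    rw [← pow_mul, hM]
    ring
  apply hne
  apply ext_inj
  have h := Prod.ext_iff.1 heq
  obtain ⟨hq, h⟩ := h
  obtain ⟨hr, h⟩ := Prod.ext_iff.1 h
  obtain ⟨hmk, hcnt⟩ := Prod.ext_iff.1 h
  replace hq : (d β).q = (d β').q := hq
  replace hr : (d β).r = (d β').r := hr
  have hmk' : ∀ i, (d β).mm i = (d β').mm i := by
    intro i
    have := congrFun hmk i
    exact congrArg Fin.val this
  have hmk2 : (d β).mm = (d β').mm := funext hmk'
  have hper : ∀ i, (((d β).K.take (mrk (d β).mm i)).map (kd s)).Perm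
      (((d β').K.take (mrk (d β).mm i)).map (kd s)) := by
    intro i
    rw [List.perm_iff_count]
    intro k
    have := congrArg Fin.val (congrFun (congrFun hcnt i) k)
    simp only [Φ] at this
    rw [this, hmk2]
  have o := hd β
  have o' := hd β'
  have hlen : (d β).K.length = (d β').K.length := by
    rw [← o.len, ← o'.len, hmk' 6]
  have oc' : sys.Cut (d β).q (d β').K := by rw [hq]; exact o'.cut
  have m6 : mrk (d β).mm 6 = (d β).K.length := o.len
  rcases Bool.eq_false_or_eq_true (d β).r with hr1 | hr1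
  · -- root
    have hr1' : (d β').r = true := by rw [← hr]; exact hr1
    have r1 := (o.root hr1).2
    have r2 := (o'.root hr1').2
    rw [← hmk' 1, ← hmk' 2, ← hmk' 3, ← hmk' 4] at r2
    have hms : ∀ m ∈ [(d β).mm 2, (d β).mm 3, (d β).mm 4, (d β).mm 4 + 1, (d β).K.length],
        (((d β).K.take m).map (kd s)).Perm (((d β').K.take m).map (kd s)) := by
      intro m hm
      simp only [List.mem_cons, List.not_mem_nil, or_false] at hm
      rcases hm with rfl | rfl | rfl | rfl | rfl
      · exact hper 0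
      · exact hper 1
      · exact hper 2
      · exact hper 3
      · have := hper 6
        rwa [m6] at this
    have g1 := hHFA N Q L rho sys hG s t (ext t β) (ext t β') (d β).q (d β).K (d β').K
      _ _ _ _ o.cut oc' o.y o'.y hlen r1 r2 hms
    have g2 := hHFA N Q L rho sys hG s t (ext t β') (ext t β) (d β).q (d β').K (d β).K
      _ _ _ _ oc' o.cut o'.y o.y hlen.symm r2 r1 (by
        intro m hm
        rw [← hlen] at hm
        exact (hms m hm).symm)
    exact hFBV.2.2 t (ext t β) (ext t β') (le_antisymm g2 g1)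
  · -- other
    have hr1' : (d β').r = false := by rw [← hr]; exact hr1
    obtain ⟨he, r1, _⟩ := o.other hr1
    obtain ⟨_, r2, c2⟩ := o'.other hr1'
    rw [← hmk' 0, ← hmk' 1, ← hmk' 2, ← hmk' 3, ← hmk' 4] at r2
    rw [← hmk' 5] at c2
    refine hHFB N Q L rho sys hG s t (ext t β) (ext t β') (d β).q (d β).K (d β').K
      _ _ _ _ _ _ o.cut oc' o.y o'.y hlen he r1 r2 c2 ?_
    intro m hm
    simp only [List.mem_cons, List.not_mem_nil, or_false] at hm
    rcases hm with rfl | rfl | rfl | rfl | rfl | rfl | rfl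
    · exact hper 0
    · exact hper 1
    · exact hper 2
    · exact hper 3
    · exact hper 4
    · exact hper 5
    · have := hper 6
      rwa [m6] at this

end Pool.Agent.H21.ERA
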