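import Pool.Agent.H51.ERA.Stmts
import Pool.Agent.H51.ERA.Base

/-!
MP_e0047e_lc, module SCNT: the number of S-nodes.
-/

set_option autoImplicit false

namespace Pool.Agent.H21.ERA

open Pool.Agent.H51.ERA

theorem SCNT_thm (hLEMA : LEMAStmt) (hDISJ : DISJStmt) : SCNTStmt := by
  intro N Q _ L rho sys hG s t b q K hc hy O hO
  classical
  have key : ∀ ν : ℕ × List Bool, ∃ A : N, ν ∈ O → ∃ (j : ℕ) (y : List Ltr), SAt s t K j ν.1 ν.2 ∧
      K[j]? = some (Symbol.nonterminal A, y) := by
    intro ν
    by_cases hν : ν ∈ O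
    · obtain ⟨_, j, hj, hS⟩ := hO ν hν
      rcases hx : K[j] with ⟨sy, y⟩
      have hx' : K[j]? = some (sy, y) := by rw [List.getElem?_eq_getElem hj, hx]
      have hmem : (sy, y) ∈ K := by rw [← hx]; exact List.getElem_mem hj
      cases sy with
      | terminal a =>
        exfalso
        have h1 := sys.term q K hc a y hmem
        have h2 := ps_succ K hx'
        obtain ⟨h3, h4, _⟩ := hS
        subst h1
        unfold gg ll at h4
        simp only [List.length_singleton] at h2
        omega
      | nonterminal A =>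
        exact ⟨A, fun _ => ⟨j, y, hS, hx'⟩⟩
    · by_cases hne : Nonempty N
      · exact ⟨hne.some, fun h => absurd h hν⟩
      · exact ⟨sys.S, fun h => absurd h hν⟩
  choose f hf using key
  have hcard : O.card ≤ (Finset.univ (α := N) ×ˢ Finset.range (DD t + 1)).card := by
    apply Finset.card_le_card_of_injOn (fun ν => (f ν, ν.2.length))
    · intro ν hν
      have := (hO ν hν).1
      simp only [Finset.coe_product, Set.mem_prod, Finset.mem_coe, Finset.mem_univ, true_and,
        Finset.mem_range]
      exact Nat.lt_succ_of_le this.2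
    · intro ν hν ν' hν' h
      simp only [Prod.mk.injEq] at h
      obtain ⟨h1, h2⟩ := h
      obtain ⟨j, y, hS, hx⟩ := hf ν hν
      obtain ⟨j', y', hS', hx'⟩ := hf ν' hν'
      rw [← h1] at hx'
      have hj := hLEMA N Q L rho sys hG s t b q K hc hy ν.1 ν'.1 ν.2 ν'.2 j j'
        (Symbol.nonterminal (f ν)) y y' (hO ν hν).1 (hO ν' hν').1 hS hS' hx hx'
      subst hj
      obtain ⟨_, a2, a3⟩ := hS
      obtain ⟨_, b2, b3⟩ := hS'
      have hg : 0 < gg s t := by unfold gg ll; omega
      obtain ⟨e1, e2⟩ := hDISJ s t (ps K (j + 1)) ν.1 ν'.1 ν.2 ν'.2 (hO ν hν).1 (hO ν' hν').1 h2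
        (by omega) (by omega) (by omega) (by omega)
      exact Prod.ext e1 e2
  rw [Finset.card_product, Finset.card_univ, Finset.card_range] at hcard
  exact hcard

end Pool.Agent.H21.ERA
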